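import Pool.Agent.Q284.GE.Stm
import Pool.Agent.Q92.PS.RSP

/-!
# Project GE: `S_RSQ` (convergence of the Rankin-Selberg product)
-/

set_option autoImplicit false

open Finset Polynomial ComplexConjugate

namespace Pool.Agent.Q265.GE

open Pool.Agent.Q284.PS Pool.Agent.Q284.GE
open Pool.Agent.Q92.PS (prod_est summable_deg)

theorem t_RSQ : S_RSQ := by
  classical
  intro F _ _ n δ α hδ hα s hs hs2
  have hq1 : 1 < qq F := by
    unfold qq
    exact_mod_cast Fintype.one_lt_card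
  have hq0 : 0 < qq F := by linarith
  set ρ : ℝ := qq F ^ (-s.re) with hρdef
  have hρ0 : 0 < ρ := Real.rpow_pos_of_pos hq0 _
  have hρ1 : ρ < 1 := Real.rpow_lt_one_of_one_lt_of_neg hq1 (by linarith)
  obtain ⟨C, hC, hest⟩ := prod_est hρ1 (Finset.univ : Finset (Fin n × Fin n))
  set r₁ : ℝ := qq F ^ (-(2 * δ) : ℝ) * ρ with hr₁
  have hr1 : qq F * r₁ < 1 := by
    have e : qq F * r₁ = qq F ^ (1 - 2 * δ - s.re) := by
      rw [hr₁, hρdef, ← Real.rpow_add hq0]
      nth_rewrite 1 [← Real.rpow_one (qq F)]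
      rw [← Real.rpow_add hq0]
      congr 1
      ring
    rw [e]
    exact Real.rpow_lt_one_of_one_lt_of_neg hq1 (by linarith)
  have hr2 : qq F * ρ ^ 2 < 1 := by
    have e : qq F * ρ ^ 2 = qq F ^ (1 - 2 * s.re) := by
      rw [hρdef, ← Real.rpow_natCast, ← Real.rpow_mul hq0.le]
      nth_rewrite 1 [← Real.rpow_one (qq F)]
      rw [← Real.rpow_add hq0]
      congr 1
      push_cast
      ring
    rw [e]
    exact Real.rpow_lt_one_of_one_lt_of_neg hq1 (by linarith)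
  have s1 := summable_deg (F := F) (r := r₁) (by positivity) hr1
  have s2 := summable_deg (F := F) (r := ρ ^ 2) (by positivity) hr2
  refine Summable.of_nonneg_of_le (fun _ => norm_nonneg _) (fun P => ?_) (s1.add (s2.mul_left C))
  obtain ⟨hα1, hα2⟩ := hα P.1 P.2.1 P.2.2
  set x : ℂ := (qq F : ℂ) ^ (-s * P.1.natDegree) with hx
  have hxn : ‖x‖ = ρ ^ P.1.natDegree := by
    rw [hx, Complex.norm_cpow_eq_rpow_re_of_pos hq0, hρdef, ← Real.rpow_natCast,
      ← Real.rpow_mul hq0.le]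
    congr 1
    simp
  have hxρ : ‖x‖ ≤ ρ := by
    rw [hxn]
    exact pow_le_of_le_one hρ0.le hρ1.le P.2.2.natDegree_pos.ne'
  have hprod : ∏ i, ∏ j, (1 - α P.1 i * conj (α P.1 j) * x)⁻¹ =
      ∏ p : Fin n × Fin n, (1 - (α P.1 p.1 * conj (α P.1 p.2)) * x)⁻¹ := by
    rw [Fintype.prod_prod_type]
  have hsum : ∑ p : Fin n × Fin n, α P.1 p.1 * conj (α P.1 p.2) =
      (∑ j, α P.1 j) * conj (∑ j, α P.1 j) := by
    rw [Fintype.sum_prod_type, map_sum, Finset.sum_mul_sum]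
  have h1 := hest (fun p => α P.1 p.1 * conj (α P.1 p.2)) x (fun p => by
    rw [norm_mul, RCLike.norm_conj, hα1, hα1, one_mul]) hxρ
  rw [hprod]
  rw [hsum] at h1
  have h2 : ‖(∑ j, α P.1 j) * conj (∑ j, α P.1 j) * x‖ ≤ r₁ ^ P.1.natDegree := by
    rw [norm_mul, norm_mul, RCLike.norm_conj, hxn, hr₁, mul_pow]
    refine mul_le_mul_of_nonneg_right ?_ (by positivity)
    calc ‖∑ j, α P.1 j‖ * ‖∑ j, α P.1 j‖ ≤ qq F ^ (-(δ * P.1.natDegree)) *
          qq F ^ (-(δ * P.1.natDegree)) :=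
          mul_le_mul hα2 hα2 (norm_nonneg _) (by positivity)
      _ = (qq F ^ (-(2 * δ) : ℝ)) ^ P.1.natDegree := by
          rw [← Real.rpow_add hq0, ← Real.rpow_natCast, ← Real.rpow_mul hq0.le]
          congr 1
          ring
  have h3 : ∏ p : Fin n × Fin n, (1 - (α P.1 p.1 * conj (α P.1 p.2)) * x)⁻¹ - 1 =
      (∏ p : Fin n × Fin n, (1 - (α P.1 p.1 * conj (α P.1 p.2)) * x)⁻¹ - 1 -
        (∑ j, α P.1 j) * conj (∑ j, α P.1 j) * x) + (∑ j, α P.1 j) * conj (∑ j, α P.1 j) * x := by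
    ring
  rw [h3]
  refine (norm_add_le _ _).trans ?_
  rw [add_comm]
  refine add_le_add h2 (h1.trans (le_of_eq ?_))
  rw [hxn, ← pow_mul, ← pow_mul, mul_comm P.1.natDegree]

end Pool.Agent.Q265.GE
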